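import Pool.Agent.H762R2.Main3

set_option autoImplicit false

open Set Filter Topology Metric MeasureTheory
open scoped OnePoint

/-!
Area-minimising normalised univalent maps of a finitely connected domain.

For a domain `D` of connectivity `n` with `0 ∈ D` all minimisers of `I(f) = ∬_D |f'|²` over `S(D)` are
determined: they are the circular slit maps belonging to the non-degenerate complementary components
whose slit disc has the least radius.
-/

namespace Pool.Agent.Results.MP_83407a_an.AreaMinimisers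

/-- The connected components of the complement of `D` in the Riemann sphere `OnePoint ℂ`. -/
def comps (D : Set ℂ) : Set (Set (OnePoint ℂ)) :=
  {C | ∃ x ∈ (((↑) : ℂ → OnePoint ℂ) '' D)ᶜ,
    C = connectedComponentIn (((↑) : ℂ → OnePoint ℂ) '' D)ᶜ x}

/-- The class `S(D)`: functions holomorphic and injective in `D` with `f(0) = 0`, `f'(0) = 1`. -/
def S (D : Set ℂ) : Set (ℂ → ℂ) :=
  {f | DifferentiableOn ℂ f D ∧ InjOn f D ∧ f 0 = 0 ∧ deriv f 0 = 1}

/-- The area integral `I(f) = ∬_D |f'|²`, with values in `[0, ∞]`. -/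
noncomputable def I (D : Set ℂ) (f : ℂ → ℂ) : ENNReal :=
  ∫⁻ z in D, ENNReal.ofReal (‖deriv f z‖ ^ 2)

/-- The closed circular arc `{r e^{iθ} : α ≤ θ ≤ β}` (a single point if `α = β`). -/
def arc (r α β : ℝ) : Set ℂ :=
  (fun θ : ℝ => (r : ℂ) * Complex.exp (θ * Complex.I)) '' Icc α β

/-- `W` is a circular slit disc of radius `R` with `m` slits: the disc `|w| < R` minus `m` pairwise
disjoint closed arcs (possibly single points) of circles centred at the origin. -/
def IsSlitDisc (W : Set ℂ) (R : ℝ) (m : ℕ) : Prop :=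
  0 < R ∧ ∃ r α β : Fin m → ℝ,
    (∀ i, 0 < r i ∧ r i < R ∧ α i ≤ β i ∧ β i < α i + 2 * Real.pi) ∧
    (∀ i j, i ≠ j → Disjoint (arc (r i) (α i) (β i)) (arc (r j) (α j) (β j))) ∧
    W = ball 0 R \ ⋃ i, arc (r i) (α i) (β i)

/-- The filter describing `z → C`, `z ∈ D`, for a subset `C` of the Riemann sphere. -/
noncomputable def toward (D : Set ℂ) (C : Set (OnePoint ℂ)) : Filter ℂ :=
  comap ((↑) : ℂ → OnePoint ℂ) (𝓝ˢ C) ⊓ 𝓟 D

/-- `f ∈ S(D)` maps `D` onto a circular slit disc of radius `R` with `m` slits such that the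
component `C` corresponds to the circle `|w| = R`, that is `|f(z)| → R` as `z → C`. -/
def IsSlitMap (D : Set ℂ) (m : ℕ) (C : Set (OnePoint ℂ)) (f : ℂ → ℂ) (R : ℝ) : Prop :=
  f ∈ S D ∧ IsSlitDisc (f '' D) R m ∧ Tendsto (fun z => ‖f z‖) (toward D C) (𝓝 R)

/-- Determination of all functions minimising the area `I(f)` in the class `S(D)`, for a domain
`D` of finite connectivity `n`. -/
theorem result {D : Set ℂ} (hD : IsOpen D) (hDc : IsConnected D) (h0 : (0 : ℂ) ∈ D) {n : ℕ}
    (hn : (comps D).encard = n) :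
    -- every non-degenerate complementary component has exactly one circular slit map
    (∀ C ∈ comps D, C.Nontrivial → ∃ (f : ℂ → ℂ) (R : ℝ), IsSlitMap D (n - 1) C f R ∧
      ∀ (g : ℂ → ℂ) (ρ : ℝ), IsSlitMap D (n - 1) C g ρ → ρ = R ∧ EqOn g f D) ∧
    -- there are no other circular slit maps in `S(D)`, and their areas are known
    (∀ f ∈ S D, ∀ (R : ℝ) (m : ℕ), IsSlitDisc (f '' D) R m →
      m = n - 1 ∧ I D f = ENNReal.ofReal (Real.pi * R ^ 2) ∧
        ∃! C, C ∈ comps D ∧ C.Nontrivial ∧ IsSlitMap D (n - 1) C f R) ∧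
    -- the sharp lower bound in each boundary class, with the case of equality
    (∀ f ∈ S D, I D f ≠ ⊤ → ∃ C ∈ comps D, C.Nontrivial ∧
      Tendsto (fun z => ((f z : ℂ) : OnePoint ℂ)) (toward D C)
        (𝓝ˢ (connectedComponentIn (((↑) : ℂ → OnePoint ℂ) '' (f '' D))ᶜ ∞)) ∧
      ∀ (g : ℂ → ℂ) (R : ℝ), IsSlitMap D (n - 1) C g R →
        ENNReal.ofReal (Real.pi * R ^ 2) ≤ I D f ∧
          (I D f = ENNReal.ofReal (Real.pi * R ^ 2) ↔ EqOn f g D)) ∧
    -- the minimisers are exactly the circular slit maps of least radius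
    (∀ f ∈ S D, ((∀ g ∈ S D, I D f ≤ I D g) ∧ I D f ≠ ⊤) ↔
      ∃ C ∈ comps D, ∃ R : ℝ, IsSlitMap D (n - 1) C f R ∧
        ∀ C' ∈ comps D, ∀ (g : ℂ → ℂ) (ρ : ℝ), IsSlitMap D (n - 1) C' g ρ → R ≤ ρ) ∧
    -- there is a minimiser with finite area as soon as some component is non-degenerate
    ((∃ C ∈ comps D, C.Nontrivial) → ∃ f ∈ S D, (∀ g ∈ S D, I D f ≤ I D g) ∧ I D f ≠ ⊤) ∧
    -- and otherwise all areas are infinite
    ((¬ ∃ C ∈ comps D, C.Nontrivial) → ∀ f ∈ S D, I D f = ⊤) := by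
  have hn' : (H762R2.comps D).encard = n := hn
  refine ⟨?_, ?_, ?_, ?_, ?_, ?_⟩
  · intro C hC hnt
    obtain ⟨f, R, hf⟩ := H762R2.main_exists hD hDc h0 hn' hC hnt
    refine ⟨f, R, hf, fun g ρ hg => ?_⟩
    exact H762R2.main_unique hD hDc h0 hn' hC hg hf
  · intro f hf R m hS
    obtain ⟨h1, h2, C, hC, hnt, hfC, hu⟩ := H762R2.main_all hD hDc hn' hf hS
    exact ⟨h1, h2, C, ⟨hC, hnt, hfC⟩, fun C' hC' => hu C' hC'.1 _ _ hC'.2.2⟩
  · intro f hf hfin
    obtain ⟨C, hC, hnt, hfC, hlow⟩ := H762R2.main_lower hD hDc h0 hn' hf hfin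
    refine ⟨C, hC, hnt, ?_, fun g R hg => ?_⟩
    · exact tendsto_comap_iff.1 (hfC.mono_right inf_le_left)
    · obtain ⟨h1, h2⟩ := hlow _ g R hg
      refine ⟨h1, h2, fun h => ?_⟩
      have h3 : I D f = volume (f '' D) := H762R2.areaI_eq hD hf
      have h4 : I D g = volume (g '' D) := H762R2.areaI_eq hD hg.1
      have h5 : I D g = ENNReal.ofReal (Real.pi * R ^ 2) := H762R2.slitMap_area hD hg
      rw [h3, h.image_eq, ← h4, h5]
  · intro f hf
    exact H762R2.main_min hD hDc h0 hn' hf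
  · intro h
    exact H762R2.main_attained hD hDc h0 hn' h
  · intro h f hf
    exact H762R2.main_infinite hD hDc h0 hn' h hf

end Pool.Agent.Results.MP_83407a_an.AreaMinimisers
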